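import Mathlib

set_option autoImplicit false

namespace Pool.Agent.P5ee74f

open Topology Set Filter

/-- completeness lemma -/
theorem exists_limit {G : Type} [AddCommGroup G] [UniformSpace G] [IsUniformAddGroup G]
    [CompleteSpace G]
    (hU : ∀ s ∈ nhds (0 : G), ∃ U : AddSubgroup G, IsOpen (U : Set G) ∧ (U : Set G) ⊆ s)
    (x : OpenAddSubgroup G → G) (hx : ∀ U V : OpenAddSubgroup G, V ≤ U → x V - x U ∈ U) :
    ∃ g : G, ∀ U : OpenAddSubgroup G, g - x U ∈ U := by
  classical
  let y : (OpenAddSubgroup G)ᵒᵈ → G := fun U => x (OrderDual.ofDual U)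
  have hc : CauchySeq y := by
    rw [(uniformity G).basis_sets.cauchySeq_iff]
    intro V hV
    simp only [id] at hV ⊢
    rw [uniformity_eq_comap_nhds_zero, mem_comap] at hV
    obtain ⟨s, hs, hsV⟩ := hV
    obtain ⟨U, hUo, hUs⟩ := hU s hs
    let U' : OpenAddSubgroup G := ⟨U, hUo⟩
    refine ⟨OrderDual.toDual U', fun k hk l hl => hsV ?_⟩
    have h1 : x (OrderDual.ofDual k) - x U' ∈ U := hx U' (OrderDual.ofDual k) hk
    have h2 : x (OrderDual.ofDual l) - x U' ∈ U := hx U' (OrderDual.ofDual l) hl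
    have h3 : x (OrderDual.ofDual l) - x (OrderDual.ofDual k) ∈ U := by
      have := U.sub_mem h2 h1
      simpa using this
    exact hUs h3
  obtain ⟨g, hg⟩ := cauchySeq_tendsto_of_complete hc
  refine ⟨g, fun U => ?_⟩
  have hcl : IsClosed (U : Set G) := U.isClosed
  have ht : Tendsto (fun V => y V - x U) atTop (𝓝 (g - x U)) := hg.sub_const (x U)
  have := hcl.mem_of_tendsto ht (by
    filter_upwards [eventually_ge_atTop (OrderDual.toDual U)] with V hV
    exact hx U (OrderDual.ofDual V) hV)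
  exact this

/-- integral of a locally constant function against a functional -/
noncomputable def integ {X : Type} [TopologicalSpace X] [CompactSpace X]
    (μ : LocallyConstant X ℤ →ₗ[ℤ] ℤ) {A : Type} [AddCommGroup A] (f : LocallyConstant X A) : A :=
  ∑ a ∈ f.range_finite.toFinset,
    μ (LocallyConstant.charFn ℤ (f.isLocallyConstant.isClopen_fiber a)) • a

theorem integ_map {X : Type} [TopologicalSpace X] [CompactSpace X]
    (μ : LocallyConstant X ℤ →ₗ[ℤ] ℤ) {A B : Type} [AddCommGroup A] [AddCommGroup B]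
    (h : A →+ B) (f : LocallyConstant X A) :
    integ μ (f.map h) = h (integ μ f) := by
  classical
  unfold integ
  rw [map_sum]
  simp only [map_zsmul]
  have hmaps : ∀ a ∈ f.range_finite.toFinset, h a ∈ (f.map h).range_finite.toFinset := by
    intro a ha
    simp only [Set.Finite.mem_toFinset, mem_range] at ha ⊢
    obtain ⟨x, rfl⟩ := ha
    exact ⟨x, rfl⟩
  rw [← Finset.sum_fiberwise_of_maps_to hmaps]
  refine Finset.sum_congr rfl fun b _ => ?_
  have h1 : ∑ a ∈ f.range_finite.toFinset with h a = b,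
      μ (LocallyConstant.charFn ℤ (f.isLocallyConstant.isClopen_fiber a)) • h a
      = ∑ a ∈ f.range_finite.toFinset with h a = b,
      μ (LocallyConstant.charFn ℤ (f.isLocallyConstant.isClopen_fiber a)) • b := by
    refine Finset.sum_congr rfl fun a ha => ?_
    rw [(Finset.mem_filter.1 ha).2]
  rw [h1, ← Finset.sum_smul, ← map_sum]
  congr 2
  ext x
  have hfin : (∑ a ∈ f.range_finite.toFinset with h a = b,
      LocallyConstant.charFn ℤ (f.isLocallyConstant.isClopen_fiber a)) x
      = ∑ a ∈ f.range_finite.toFinset with h a = b,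
      LocallyConstant.charFn ℤ (f.isLocallyConstant.isClopen_fiber a) x := by
    rw [← LocallyConstant.coeFnAddMonoidHom_apply, map_sum, Finset.sum_apply]
    rfl
  rw [hfin]
  simp only [LocallyConstant.coe_charFn, Set.indicator, mem_ofPred_eq, Pi.one_apply]
  rw [Finset.sum_ite_eq]
  by_cases hb : h (f x) = b
  · simp [hb]
  · simp [hb]


theorem integ_add {X : Type} [TopologicalSpace X] [CompactSpace X]
    (μ ν : LocallyConstant X ℤ →ₗ[ℤ] ℤ) {A : Type} [AddCommGroup A] (f : LocallyConstant X A) :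
    integ (μ + ν) f = integ μ f + integ ν f := by
  simp [integ, add_smul, Finset.sum_add_distrib]

/-- reduction map as a locally constant function on a subset -/
noncomputable def redn {G : Type} [AddCommGroup G] [UniformSpace G] [IsUniformAddGroup G]
    (K : Set G) (U : OpenAddSubgroup G) : LocallyConstant K (G ⧸ U.toAddSubgroup) where
  toFun x := QuotientAddGroup.mk x.1
  isLocallyConstant := by
    rw [IsLocallyConstant.iff_continuous]
    exact (QuotientAddGroup.continuous_mk).comp continuous_subtype_val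

theorem totSep {G : Type} [AddCommGroup G] [UniformSpace G] [IsUniformAddGroup G] [T2Space G]
    (hU : ∀ s ∈ nhds (0 : G), ∃ U : AddSubgroup G, IsOpen (U : Set G) ∧ (U : Set G) ⊆ s) :
    TotallySeparatedSpace G := by
  rw [totallySeparatedSpace_iff_exists_isClopen]
  intro x y hxy
  have hne : x - y ≠ 0 := sub_ne_zero.2 hxy
  have hn : {x - y}ᶜ ∈ 𝓝 (0 : G) := isOpen_compl_singleton.mem_nhds (by simpa using hne.symm)
  obtain ⟨U, hUo, hUs⟩ := hU _ hn
  have hcl : IsClopen (U : Set G) := ⟨(⟨U, hUo⟩ : OpenAddSubgroup G).isClosed, hUo⟩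
  refine ⟨(fun g => x - g) ⁻¹' (U : Set G), hcl.preimage (by fun_prop), ?_, ?_⟩
  · simp
  · simp only [mem_compl_iff, mem_preimage, SetLike.mem_coe]
    intro h
    exact hUs h rfl

theorem eq_of_forall_mk {G : Type} [AddCommGroup G] [UniformSpace G] [IsUniformAddGroup G]
    [T2Space G]
    (hU : ∀ s ∈ nhds (0 : G), ∃ U : AddSubgroup G, IsOpen (U : Set G) ∧ (U : Set G) ⊆ s)
    {x y : G} (h : ∀ U : OpenAddSubgroup G, x - y ∈ U) : x = y := by
  by_contra hxy
  have hne : x - y ≠ 0 := sub_ne_zero.2 hxy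
  have hn : {x - y}ᶜ ∈ 𝓝 (0 : G) := isOpen_compl_singleton.mem_nhds (by simpa using hne.symm)
  obtain ⟨U, hUo, hUs⟩ := hU _ hn
  exact hUs (h ⟨U, hUo⟩) rfl

theorem exists_hom {G : Type} [AddCommGroup G] [UniformSpace G] [IsUniformAddGroup G]
    [T2Space G] [CompleteSpace G]
    (hU : ∀ s ∈ nhds (0 : G), ∃ U : AddSubgroup G, IsOpen (U : Set G) ∧ (U : Set G) ⊆ s)
    (K : Set G) (hK : IsCompact K) :
    ∃ (κ : Type) (Φ : (κ → ℤ) →+ G), (∀ x ∈ K, x ∈ Φ.range) ∧
      ∀ U : OpenAddSubgroup G, ∃ F : Finset κ, ∀ m : κ → ℤ, (∀ i ∈ F, m i = 0) → Φ m ∈ U := by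
  classical
  have : TotallySeparatedSpace G := totSep hU
  have : CompactSpace K := isCompact_iff_compactSpace.1 hK
  have hfree : Module.Free ℤ (LocallyConstant K ℤ) :=
    LocallyConstant.freeOfProfinite (Profinite.of K)
  let κ := Module.Free.ChooseBasisIndex ℤ (LocallyConstant K ℤ)
  let e : Module.Basis κ ℤ (LocallyConstant K ℤ) := Module.Free.chooseBasis ℤ (LocallyConstant K ℤ)
  let I : (κ → ℤ) → (U : OpenAddSubgroup G) → G ⧸ U.toAddSubgroup :=
    fun m U => integ (e.constr ℤ m) (redn K U)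
  have hI : ∀ m, ∀ U V : OpenAddSubgroup G, ∀ h : V ≤ U,
      QuotientAddGroup.map V.toAddSubgroup U.toAddSubgroup (AddMonoidHom.id G) h (I m V) = I m U := by
    intro m U V h
    have := integ_map (e.constr ℤ m)
      (QuotientAddGroup.map V.toAddSubgroup U.toAddSubgroup (AddMonoidHom.id G) h) (redn K V)
    rw [← this]
    rfl
  have hlim : ∀ m, ∃ g : G, ∀ U : OpenAddSubgroup G, (QuotientAddGroup.mk g : G ⧸ U.toAddSubgroup) = I m U := by
    intro m
    have hx : ∀ U V : OpenAddSubgroup G, V ≤ U → (I m V).out - (I m U).out ∈ U := by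
      intro U V h
      have h1 := hI m U V h
      have h2 : (QuotientAddGroup.mk (I m V).out : G ⧸ V.toAddSubgroup) = I m V := Quotient.out_eq' _
      have h3 : (QuotientAddGroup.mk (I m U).out : G ⧸ U.toAddSubgroup) = I m U := Quotient.out_eq' _
      rw [← h2, ← h3] at h1
      change (QuotientAddGroup.mk (I m V).out : G ⧸ U.toAddSubgroup)
        = (QuotientAddGroup.mk (I m U).out : G ⧸ U.toAddSubgroup) at h1
      rw [eq_comm, QuotientAddGroup.eq] at h1
      rw [sub_eq_neg_add]
      exact h1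
    obtain ⟨g, hg⟩ := exists_limit hU (fun U => (I m U).out) hx
    refine ⟨g, fun U => ?_⟩
    have h3 : (QuotientAddGroup.mk (I m U).out : G ⧸ U.toAddSubgroup) = I m U := Quotient.out_eq' _
    rw [← h3, eq_comm, QuotientAddGroup.eq]
    have := hg U
    rw [sub_eq_neg_add] at this
    exact this
  choose φ hφ using hlim
  have huniq : ∀ m g, (∀ U : OpenAddSubgroup G, (QuotientAddGroup.mk g : G ⧸ U.toAddSubgroup) = I m U) →
      φ m = g := by
    intro m g hg
    refine eq_of_forall_mk hU fun U => ?_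
    have := (hg U).trans (hφ m U).symm
    rw [QuotientAddGroup.eq] at this
    rw [sub_eq_neg_add]
    exact this
  let Φ : (κ → ℤ) →+ G := AddMonoidHom.mk' φ (by
    intro a b
    refine huniq _ _ fun U => ?_
    rw [QuotientAddGroup.mk_add, hφ, hφ]
    show integ (e.constr ℤ a) (redn K U) + integ (e.constr ℤ b) (redn K U)
      = integ (e.constr ℤ (a + b)) (redn K U)
    rw [← integ_add, map_add])
  refine ⟨κ, Φ, ?_, ?_⟩
  · intro x hx
    refine ⟨fun α => e α ⟨x, hx⟩, ?_⟩
    refine huniq _ _ fun U => ?_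
    show _ = integ (e.constr ℤ _) (redn K U)
    have hev : ∀ f : LocallyConstant K ℤ, e.constr ℤ (fun α => e α ⟨x, hx⟩) f = f ⟨x, hx⟩ := by
      intro f
      let L : LocallyConstant K ℤ →ₗ[ℤ] ℤ :=
        { toFun := fun f => f ⟨x, hx⟩
          map_add' := fun _ _ => rfl
          map_smul' := fun _ _ => rfl }
      have := e.constr_self ℤ L
      exact congrArg (fun g : LocallyConstant K ℤ →ₗ[ℤ] ℤ => g f) this
    unfold integ
    simp only [hev, LocallyConstant.coe_charFn, Set.indicator, mem_ofPred_eq, Pi.one_apply]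
    simp only [ite_smul, one_smul, zero_smul]
    rw [Finset.sum_ite_eq]
    simp
    rfl
  · intro U
    let F : Finset κ := (redn K U).range_finite.toFinset.biUnion fun a =>
      (e.repr (LocallyConstant.charFn ℤ ((redn K U).isLocallyConstant.isClopen_fiber a))).support
    refine ⟨F, fun m hm => ?_⟩
    have h1 : I m U = 0 := by
      show integ (e.constr ℤ m) (redn K U) = 0
      unfold integ
      refine Finset.sum_eq_zero fun a ha => ?_
      rw [Module.Basis.constr_apply]
      rw [Finsupp.sum, Finset.sum_eq_zero, zero_smul]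
      intro i hi
      rw [hm i (Finset.mem_biUnion.2 ⟨a, ha, hi⟩), smul_zero]
    have h2 := hφ m U
    rw [h1, QuotientAddGroup.eq_zero_iff] at h2
    exact h2

/-- n-fold sums -/
def Kn {G : Type} [AddCommGroup G] (S : Set G) : ℕ → Set G
  | 0 => {0}
  | n + 1 => Set.image2 (fun a b => a + b) (Kn S n) S

theorem Kn_compact {G : Type} [AddCommGroup G] [TopologicalSpace G] [ContinuousAdd G] {S : Set G}
    (hS : IsCompact S) (n : ℕ) : IsCompact (Kn S n) := by
  induction n with
  | zero => exact isCompact_singleton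
  | succ n ih =>
    have := (ih.prod hS).image continuous_add
    rwa [Set.image_prod (fun a b => a + b)] at this

theorem Kn_add {G : Type} [AddCommGroup G] {S : Set G} (n m : ℕ) {x y : G}
    (hx : x ∈ Kn S n) (hy : y ∈ Kn S m) : x + y ∈ Kn S (n + m) := by
  induction m generalizing y with
  | zero =>
    have : y = 0 := hy
    subst this
    simpa using hx
  | succ m ih =>
    obtain ⟨a, ha, b, hb, rfl⟩ := hy
    refine ⟨x + a, ih ha, b, hb, ?_⟩
    simp only [add_assoc]

theorem Kn_neg {G : Type} [AddCommGroup G] {S : Set G} (hS : ∀ x ∈ S, -x ∈ S) (n : ℕ) {x : G}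
    (hx : x ∈ Kn S n) : -x ∈ Kn S n := by
  induction n generalizing x with
  | zero =>
    have : x = 0 := hx
    subst this
    simpa using hx
  | succ m ih =>
    obtain ⟨a, ha, b, hb, rfl⟩ := hx
    refine ⟨-a, ih ha, -b, hS b hb, ?_⟩
    simp only [neg_add]

theorem Kn_cover {G : Type} [AddCommGroup G] {S K : Set G} (hS : ∀ x ∈ S, -x ∈ S) (hK : K ⊆ S)
    (hc : AddSubgroup.closure K = ⊤) (x : G) : ∃ n, x ∈ Kn S n := by
  have hx : x ∈ AddSubgroup.closure K := by rw [hc]; trivial
  induction hx using AddSubgroup.closure_induction with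
  | mem x hx => exact ⟨1, 0, rfl, x, hK hx, by simp⟩
  | zero => exact ⟨0, rfl⟩
  | add x y _ _ hx hy =>
    obtain ⟨n, hn⟩ := hx
    obtain ⟨m, hm⟩ := hy
    exact ⟨n + m, Kn_add n m hn hm⟩
  | neg x _ hx =>
    obtain ⟨n, hn⟩ := hx
    exact ⟨n, Kn_neg hS n hn⟩

/-- Baire type argument for products -/
theorem baire_step {κ : Type} (P : ℕ → (κ → ℤ) → Prop)
    (h : ∀ n (z : κ → ℤ) (F : Finset κ), ∃ (z' : κ → ℤ) (F' : Finset κ), F ⊆ F' ∧
      (∀ i ∈ F, z' i = z i) ∧ ∀ m : κ → ℤ, (∀ i ∈ F', m i = z' i) → P n m) :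
    ∃ m : κ → ℤ, ∀ n, P n m := by
  classical
  choose f g h1 h2 h3 using h
  let seq : ℕ → (κ → ℤ) × Finset κ := fun n =>
    Nat.rec (0, ∅) (fun n p => (f n p.1 p.2, g n p.1 p.2)) n
  have hs : ∀ n, seq (n + 1) = (f n (seq n).1 (seq n).2, g n (seq n).1 (seq n).2) := fun n => rfl
  have hmono : ∀ n k, (seq n).2 ⊆ (seq (n + k)).2 := by
    intro n k
    induction k with
    | zero => exact subset_rfl
    | succ k ih =>
      refine ih.trans ?_
      rw [← add_assoc, hs]
      exact h1 _ _ _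
  have hagree : ∀ n k, ∀ i ∈ (seq n).2, (seq (n + k)).1 i = (seq n).1 i := by
    intro n k i hi
    induction k with
    | zero => rfl
    | succ k ih =>
      rw [← ih, ← add_assoc, hs]
      exact h2 _ _ _ i (hmono n k hi)
  let m : κ → ℤ := fun i => if hi : ∃ n, i ∈ (seq n).2 then (seq (Nat.find hi)).1 i else 0
  have hm : ∀ n, ∀ i ∈ (seq n).2, m i = (seq n).1 i := by
    intro n i hi
    have hex : ∃ n, i ∈ (seq n).2 := ⟨n, hi⟩
    have : m i = (seq (Nat.find hex)).1 i := dif_pos hex
    rw [this]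
    obtain ⟨k, hk⟩ := Nat.exists_eq_add_of_le (Nat.find_min' hex hi)
    have := hagree (Nat.find hex) k i (Nat.find_spec hex)
    rw [← hk] at this
    exact this.symm
  refine ⟨m, fun n => h3 n (seq n).1 (seq n).2 m ?_⟩
  intro i hi
  have := hm (n + 1) i (by rw [hs]; exact hi)
  rw [this, hs]

theorem finite_of {G : Type} [AddCommGroup G] [UniformSpace G] [IsUniformAddGroup G]
    [T2Space G] [CompleteSpace G]
    (hU : ∀ s ∈ nhds (0 : G), ∃ U : AddSubgroup G, IsOpen (U : Set G) ∧ (U : Set G) ⊆ s)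
    (hK : ∃ K : Set G, IsCompact K ∧ AddSubgroup.closure K = ⊤)
    (hN : ∀ H : AddSubgroup G, IsCompact (H : Set G) → H = ⊥) :
    Module.Finite ℤ G := by
  classical
  obtain ⟨K, hKc, hKt⟩ := hK
  obtain ⟨κ, Φ, hΦK, hΦU⟩ := exists_hom hU K hKc
  have hsurj : ∀ x : G, x ∈ Φ.range := by
    have h : AddSubgroup.closure K ≤ Φ.range := (AddSubgroup.closure_le _).2 hΦK
    rw [hKt] at h
    exact fun x => h trivial
  let S : Set G := K ∪ -K
  have hSc : IsCompact S := hKc.union hKc.neg
  have hSn : ∀ x ∈ S, -x ∈ S := by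
    rintro x (hx | hx)
    · right; simpa using hx
    · left; simpa using hx
  have hcov := Kn_cover hSn (subset_union_left : K ⊆ S) hKt
  have hmain : ∃ n, ∃ z : κ → ℤ, ∃ F : Finset κ, ∀ m : κ → ℤ, (∀ i ∈ F, m i = z i) → Φ m ∈ Kn S n := by
    by_contra hcon
    push Not at hcon
    obtain ⟨m, hm⟩ := baire_step (fun n m => Φ m ∉ Kn S n) (by
      intro n z F
      obtain ⟨m, hmz, hmn⟩ := hcon n z F
      have ho : IsOpen (Kn S n)ᶜ := (Kn_compact hSc n).isClosed.isOpen_compl
      have hn : (fun g => Φ m + g) ⁻¹' (Kn S n)ᶜ ∈ 𝓝 (0 : G) :=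
        (ho.preimage (by fun_prop)).mem_nhds (by simpa using hmn)
      obtain ⟨U, hUo, hUs⟩ := hU _ hn
      obtain ⟨F', hF'⟩ := hΦU ⟨U, hUo⟩
      refine ⟨m, F ∪ F', Finset.subset_union_left, hmz, fun m' hm' => ?_⟩
      have h1 : Φ (m' - m) ∈ U := hF' (m' - m) fun i hi => by
        simp [hm' i (Finset.mem_union_right _ hi)]
      have h2 := hUs h1
      simpa using h2)
    obtain ⟨n, hn⟩ := hcov (Φ m)
    exact hm n hn
  obtain ⟨n, z, F, hF⟩ := hmain
  let W : AddSubgroup (κ → ℤ) :=
    { carrier := {m | ∀ i ∈ F, m i = 0}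
      zero_mem' := fun i _ => rfl
      add_mem' := fun {a b} ha hb i hi => by simp [ha i hi, hb i hi]
      neg_mem' := fun {a} ha i hi => by simp [ha i hi] }
  have hsub : ((W.map Φ : AddSubgroup G) : Set G) ⊆
      Set.image2 (fun a b => a - b) (Kn S n) (Kn S n) := by
    rintro _ ⟨m, hm, rfl⟩
    refine ⟨Φ (z + m), hF _ fun i hi => ?_, Φ z, hF _ fun i hi => rfl, by simp⟩
    have : m i = 0 := hm i hi
    simp [this]
  have hcpt : IsCompact (Set.image2 (fun a b => a - b) (Kn S n) (Kn S n)) := by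
    have := ((Kn_compact hSc n).prod (Kn_compact hSc n)).image continuous_sub
    rwa [Set.image_prod (fun a b => a - b)] at this
  have hcl : ((W.map Φ).topologicalClosure : Set G) ⊆
      Set.image2 (fun a b => a - b) (Kn S n) (Kn S n) := by
    rw [AddSubgroup.topologicalClosure_coe]
    exact closure_minimal hsub hcpt.isClosed
  have hbot : (W.map Φ).topologicalClosure = ⊥ :=
    hN _ (hcpt.of_isClosed_subset (AddSubgroup.isClosed_topologicalClosure _) hcl)
  have hW : ∀ m ∈ W, Φ m = 0 := by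
    intro m hm
    have : Φ m ∈ (W.map Φ).topologicalClosure :=
      AddSubgroup.le_topologicalClosure _ ⟨m, hm, rfl⟩
    rw [hbot] at this
    exact this
  refine ⟨⟨F.image fun i => Φ (Pi.single i 1), ?_⟩⟩
  rw [eq_top_iff]
  intro x _
  obtain ⟨m, rfl⟩ := hsurj x
  have h1 : Φ m = ∑ i ∈ F, m i • Φ (Pi.single i 1) := by
    have h2 : Φ (m - ∑ i ∈ F, m i • Pi.single i 1) = 0 := by
      refine hW _ fun j hj => ?_
      simp [Finset.sum_apply, Pi.single_apply, hj]
    rw [map_sub, sub_eq_zero] at h2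
    rw [h2, map_sum]
    simp only [map_zsmul]
  rw [h1]
  refine Submodule.sum_mem _ fun i hi => Submodule.smul_mem _ _ (Submodule.subset_span ?_)
  simp only [Finset.coe_image]
  exact ⟨i, hi, rfl⟩

theorem main_thm {G : Type} [AddCommGroup G] [UniformSpace G] [IsUniformAddGroup G]
    [T2Space G] [CompleteSpace G]
    (hU : ∀ s ∈ nhds (0 : G), ∃ U : AddSubgroup G, IsOpen (U : Set G) ∧ (U : Set G) ⊆ s)
    (hK : ∃ K : Set G, IsCompact K ∧ AddSubgroup.closure K = ⊤)
    (hN : ∀ H : AddSubgroup G, IsCompact (H : Set G) → H = ⊥) :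
    DiscreteTopology G ∧ ∃ n : ℕ, Nonempty (G ≃+ (Fin n → ℤ)) := by
  classical
  have hfin : Module.Finite ℤ G := finite_of hU hK hN
  have htf : Module.IsTorsionFree ℤ G := by
    refine Module.IsTorsionFree.of_smul_eq_zero ?_
    intro r x hrx
    by_contra hcon
    push Not at hcon
    obtain ⟨hr, hx⟩ := hcon
    have hfo : IsOfFinAddOrder x := by
      rw [isOfFinAddOrder_iff_zsmul_eq_zero]
      exact ⟨r, hr, hrx⟩
    have hf : (AddSubgroup.zmultiples x : Set G).Finite := hfo.finite_zmultiples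
    have := hN (AddSubgroup.zmultiples x) hf.isCompact
    rw [AddSubgroup.zmultiples_eq_bot] at this
    exact hx this
  have hfree : Module.Free ℤ G := Module.free_of_finite_type_torsion_free'
  refine ⟨?_, Module.finrank ℤ G, ?_⟩
  · -- minimal rank open subgroup
    have hex : ∃ r : ℕ, ∃ U : AddSubgroup G, IsOpen (U : Set G) ∧
        Module.finrank ℤ (AddSubgroup.toIntSubmodule U) = r := ⟨_, ⊤, isOpen_univ, rfl⟩
    obtain ⟨U, hUo, hUr⟩ := Nat.find_spec hex
    have hmin : ∀ V : AddSubgroup G, IsOpen (V : Set G) →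
        Nat.find hex ≤ Module.finrank ℤ (AddSubgroup.toIntSubmodule V) :=
      fun V hV => Nat.find_min' hex ⟨V, hV, rfl⟩
    have hcov : ∀ V : AddSubgroup G, IsOpen (V : Set G) → V ≤ U →
        ∃ t : Set G, t.Finite ∧ (U : Set G) ⊆ ⋃ y ∈ t, (fun g => y + g) '' (V : Set G) := by
      intro V hV hVU
      let M : Submodule ℤ G := AddSubgroup.toIntSubmodule U
      let V' : Submodule ℤ G := AddSubgroup.toIntSubmodule V
      have hVM : V' ≤ M := hVU
      let N : Submodule ℤ M := V'.comap M.subtype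
      have h1 : Module.finrank ℤ N = Module.finrank ℤ V' :=
        (Submodule.comapSubtypeEquivOfLe hVM).finrank_eq
      have h2 : Module.finrank ℤ N ≤ Module.finrank ℤ M := Submodule.finrank_le N
      have h3 : Module.finrank ℤ M ≤ Module.finrank ℤ V' := by
        rw [hUr]
        exact hmin V hV
      have h4 : Module.finrank ℤ N = Module.finrank ℤ M := by omega
      have hfq : Finite (M ⧸ N) := Submodule.finiteQuotientOfFreeOfRankEq N h4
      refine ⟨Set.range fun q : M ⧸ N => ((Quotient.out q : M) : G), Set.finite_range _, ?_⟩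
      intro u hu
      let q : M ⧸ N := Submodule.Quotient.mk ⟨u, hu⟩
      have hq : (Submodule.Quotient.mk (Quotient.out q) : M ⧸ N) = Submodule.Quotient.mk ⟨u, hu⟩ :=
        Quotient.out_eq' q
      rw [eq_comm, Submodule.Quotient.eq] at hq
      refine mem_iUnion₂.2 ⟨_, ⟨q, rfl⟩, u - ((Quotient.out q : M) : G), hq, ?_⟩
      simp
    have htb : TotallyBounded (U : Set G) := by
      rw [totallyBounded_iff_subset_finite_iUnion_nhds_zero]
      intro s hs
      obtain ⟨V, hVo, hVs⟩ := hU s hs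
      obtain ⟨t, ht, hts⟩ := hcov (V ⊓ U) (hVo.inter hUo) inf_le_right
      refine ⟨t, ht, hts.trans ?_⟩
      refine iUnion₂_mono fun y hy => ?_
      rintro _ ⟨v, hv, rfl⟩
      exact ⟨v, hVs hv.1, rfl⟩
    have hUcl : IsClosed (U : Set G) := (⟨U, hUo⟩ : OpenAddSubgroup G).isClosed
    have hUc : IsCompact (U : Set G) := htb.isCompact_of_isClosed hUcl
    have hbot := hN U hUc
    rw [hbot] at hUo
    exact discreteTopology_of_isOpen_singleton_zero (by simpa using hUo)
  · have b := Module.finBasis ℤ G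
    exact ⟨b.equivFun.toAddEquiv⟩

end Pool.Agent.P5ee74f
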